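import Pool.Agent.MP_b0afd3_gt.H79.Piece

set_option autoImplicit false

namespace Pool.Agent.MP_b0afd3_gt.H79

open Real Filter Topology Pool.Agent.MP_b0afd3_gt.H80 Col MeasureTheory

/-- the hypotheses at one vertex -/
def At (n : ℕ → Fin 4 → ℝ) (c : ℕ → Sym2 ℕ → ℕ) (x y z : ℕ) : Prop :=
  (∀ᶠ m : ℕ in atTop, Adm (2 * m + 1) (c m s(y, z)) (c m s(x, z)) (c m s(x, y))) ∧
    Conv (fun m => c m s(y, z)) (arccos (-mink (n y) (n z))) ∧
    Conv (fun m => c m s(x, z)) (arccos (-mink (n x) (n z))) ∧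
    Conv (fun m => c m s(x, y)) (arccos (-mink (n x) (n y)))

variable {n : ℕ → Fin 4 → ℝ} {c : ℕ → Sym2 ℕ → ℕ} {i j k l : ℕ} {p : Fin 4 → Fin 3 → ℝ}

theorem pos_piece (h : Tetra p ![n i, n j, n k, n l]) (h0 : At n c j k l) (h1 : At n c i k l)
    (h2 : At n c i j l) (h3 : At n c i j k) :
    Lim (fun m => piece (2 * m + 1) (c m) i j k l) (hypVol (convexHull ℝ (Set.range p))) := by
  obtain ⟨R, g, P, V⟩ := tetra_data h rfl rfl rfl rfl rfl rfl
  rw [V]
  exact fin (vol_pos R g P).ne' R (fun C L La => (main L La R g P).1)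
    (h0.1.and (h1.1.and (h2.1.and h3.1))) h2.2.2.2 h0.2.2.1 h0.2.2.2 h1.2.2.1 h1.2.2.2 h0.2.1

theorem mink_neg (x y : Fin 4 → ℝ) : mink (-x) y = -mink x y := by
  simp only [mink, Pi.neg_apply]; ring

theorem neg_piece (h : Tetra p ![-n i, n j, n k, n l]) (h1 : At n c i k l)
    (h2 : At n c i j l) (h3 : At n c i j k) : At n c j k l ∧
    Lim (fun m => piece (2 * m + 1) (c m) i j k l) (-hypVol (convexHull ℝ (Set.range p))) := by
  have E : ∀ x y : Fin 4 → ℝ, π - (π - arccos (-mink x y)) = π - arccos (-mink (-x) y) :=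
    fun x y => by rw [mink_neg, neg_neg, arccos_neg, sub_sub_cancel]
  obtain ⟨R, g, P, V⟩ := tetra_data h (E (n i) (n j)) rfl rfl (E (n i) (n l)) (E (n i) (n k)) rfl
  have R' := reg_flip R
  have h0 : At n c j k l := ⟨virt R'.t1 R'.t2 R'.t3 R'.t4 (h1.1.and (h2.1.and h3.1)) h1.2.1 h2.2.1
    h3.2.1 h1.2.2.1 h1.2.2.2 h2.2.2.2, h1.2.1, h2.2.1, h3.2.1⟩
  refine ⟨h0, ?_⟩
  rw [V]
  exact fin (neg_ne_zero.2 (vol_pos R g P).ne') R' (fun C L La => neg_vol R g P L La)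
    (h0.1.and (h1.1.and (h2.1.and h3.1))) h2.2.2.2 h0.2.2.1 h0.2.2.2 h1.2.2.1 h1.2.2.2 h0.2.1

theorem hull_int {N : Fin 4 → Fin 4 → ℝ} (h : Tetra p N) : IntegrableOn
    (fun x : Fin 3 → ℝ => 1 / (1 - (x 0 ^ 2 + x 1 ^ 2 + x 2 ^ 2)) ^ 2)
      (convexHull ℝ (Set.range p)) :=
  ContinuousOn.integrableOn_compact ((Set.finite_range p).isCompact_convexHull ℝ)
    (ContinuousOn.div continuousOn_const (by fun_prop) fun _ hx =>
      pow_ne_zero 2 (sub_pos.2 (H14.hull_ball h hx)).ne')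

theorem plane_null {w : Fin 4 → ℝ} (h : mink w w = 1) :
    volume {x : Fin 3 → ℝ | mink w (lift x) = 0} = 0 := by
  let S : AffineSubspace ℝ (Fin 3 → ℝ) := ⟨{x | mink w (lift x) = 0}, fun t x y z hx hy hz => by
    simp only [mink, lift, Set.mem_ofPred_eq, Matrix.cons_val, vadd_eq_add, vsub_eq_sub,
      Pi.add_apply, Pi.smul_apply, Pi.sub_apply, smul_eq_mul] at *
    linear_combination t * hx - t * hy + hz⟩
  refine Measure.addHaar_affineSubspace volume S fun g => ?_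
  have k : ∀ x, mink w (lift x) = 0 := fun x => show x ∈ S from g ▸ AffineSubspace.mem_top _ _ _
  have k0 := k 0
  have k1 := k ![w 1, w 2, w 3]
  simp only [mink, lift, Matrix.cons_val, Pi.zero_apply] at *
  nlinarith

theorem cont_mink (w : Fin 4 → ℝ) : Continuous fun x : Fin 3 → ℝ => mink w (lift x) := by
  simp only [mink, lift, Matrix.cons_val]
  fun_prop

theorem vol_split {P : Set (Fin 3 → ℝ)} {w : Fin 4 → ℝ} (h : mink w w = 1)
    (hi : IntegrableOn (fun x : Fin 3 → ℝ => 1 / (1 - (x 0 ^ 2 + x 1 ^ 2 + x 2 ^ 2)) ^ 2) P) :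
    hypVol (P ∩ {x | mink w (lift x) ≤ 0}) =
      hypVol P + -hypVol (P ∩ {x | 0 ≤ mink w (lift x)}) := by
  have m1 : MeasurableSet {x : Fin 3 → ℝ | mink w (lift x) ≤ 0} :=
    (isClosed_le (cont_mink w) continuous_const).measurableSet
  have e := integral_inter_add_sdiff m1 hi
  have a : (P \ {x | mink w (lift x) ≤ 0} : Set _) =ᵐ[volume]
      (P ∩ {x | 0 ≤ mink w (lift x)} : Set _) := by
    filter_upwards [measure_eq_zero_iff_ae_notMem.1 (plane_null h)] with x hx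
    refine propext (and_congr_right fun _ => ?_)
    simp only [Set.mem_ofPred_eq, not_le] at hx ⊢
    exact ⟨le_of_lt, fun g => g.lt_of_ne' hx⟩
  rw [setIntegral_congr_set a] at e
  simp only [hypVol]
  linarith

theorem trunc {V : Set (ℕ × ℕ × ℕ)} {P : Set (Fin 3 → ℝ)} {B : ℕ → (Sym2 ℕ → ℕ) → ℝ}
    (h : Trunc n k V P B) : (MeasurableSet P ∧ IntegrableOn
      (fun x : Fin 3 → ℝ => 1 / (1 - (x 0 ^ 2 + x 1 ^ 2 + x 2 ^ 2)) ^ 2) P) ∧
    ((∀ x y z, (x, y, z) ∈ V → At n c x y z) → Lim (fun m => B (2 * m + 1) (c m)) (hypVol P)) := by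
  induction h with
  | base p h =>
    exact ⟨⟨H14.measurableSet_hull, hull_int h⟩, fun H =>
      pos_piece h (H _ _ _ (by simp)) (H _ _ _ (by simp)) (H _ _ _ (by simp)) (H _ _ _ (by simp))⟩
  | cut k V P B x y z q _ hV hq hP ih =>
    obtain ⟨⟨i1, i2⟩, i3⟩ := ih
    refine ⟨⟨i1.inter (isClosed_le (cont_mink _) continuous_const).measurableSet,
      i2.mono_set Set.inter_subset_left⟩, fun H => ?_⟩
    obtain ⟨k0, k1⟩ := neg_piece hq (H _ _ _ (by simp)) (H _ _ _ (by simp)) (H _ _ _ (by simp))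
    have u : mink (n k) (n k) = 1 := by
      have := hq.unit 0
      simp only [mink, Matrix.cons_val, Pi.neg_apply] at this ⊢
      linarith
    rw [vol_split u i2, hP]
    refine (i3 fun a b d g => ?_).mul k1
    by_cases e : (a, b, d) = (x, y, z)
    · obtain ⟨rfl, rfl, rfl⟩ : a = x ∧ b = y ∧ d = z := by simpa using e
      exact k0
    · exact H _ _ _ (Or.inl ⟨g, e⟩)

end Pool.Agent.MP_b0afd3_gt.H79
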