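import Pool.Agent.MP_b0afd3_gt.H79.Grow

set_option autoImplicit false

namespace Pool.Agent.MP_b0afd3_gt.H79

open Real Filter Topology Pool.Agent.MP_b0afd3_gt.H80 Col

variable {a b c d e f ξ x y z : ℝ}

theorem bd_A (h : Reg z b c d e f) (g1 : gd z b c d e f = 0) (h1 : c - e ≤ b - d)
    (h2 : e - c ≤ b - d) (hg' : ∀ x, 0 ≤ x → x < z → gd x b c d e f < 0) {ε : ℝ} (hε : 0 < ε) :
    ∀ᶠ y in 𝓝[>] (b - d),
      |U (b - d) b c d e f ((f + b + c) / 2) + ∫ x in y..z, kap b c d e f x| ≤ ε := by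
  have mz := h.t3.mem
  have mf := h.t1.mem
  have mb := h.t1.rot.mem
  have mc := h.t1.rot.rot.mem
  have md := h.t2.rot.mem
  have me := h.t2.rot.rot.mem
  obtain ⟨k1, k2, k3, k4⟩ := h.t1
  obtain ⟨k5, k6, k7, k8⟩ := h.t2
  have m1 : b - d < z := by linarith [h.t3.2.1]
  have hg := hg' (b - d) (by linarith) m1
  have gl : ∀ x, b - d < x → x < z → gd x b c d e f < 0 := fun x p q => hg' x (by linarith) q
  suffices H : ∀ᶠ y in 𝓝[>] (b - d),
      -ε ≤ U (b - d) b c d e f ((f + b + c) / 2) + ∫ x in y..z, kap b c d e f x by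
    filter_upwards [up_A h g1.ge h1 h2 hg hε, H] with y p q using abs_le.2 ⟨q, p⟩
  obtain ⟨s, s0, hs⟩ := U_uc hε
  obtain ⟨δ, d1, ⟨d0, d2⟩, ⟨-, d3⟩, ⟨-, d4⟩, ⟨-, d5⟩, ⟨-, d6⟩, -, d7⟩ := ((simple_root
    (ξ := (f + b + c) / 2) (by
      rw [sX, sY, show (b - d + f + c + d) / 2 = (f + b + c) / 2 by ring]; simp) hg).and
    ((ev_lt s0).and ((ev_lt (sub_pos.2 mb.2)).and ((ev_lt (sub_pos.2 mc.2)).and
    ((ev_lt (sub_pos.2 md.2)).and ((ev_lt (sub_pos.2 me.2)).and (ev_lt mb.1))))))).exists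
  have key : ∀ y, b - d < y → y < z → y < b - d + s → ∀ t : ℝ, ∀ σ : ℝ,
      (σ = 1 ∨ σ = -1) → U y b c d e f t = U y b c d e f (rt σ y b c d e f) →
      |(f + b + c) / 2 - t| < s →
      -ε ≤ U (b - d) b c d e f ((f + b + c) / 2) + ∫ x in y..z, kap b c d e f x := by
    intro y y1 y2 y3 t σ hσ e1 e4
    have ry := h.low h1 h2 y1 (by linarith)
    have p := V_int ry h y2.le (gl y y1 y2).le g1.le (fun x hx => gl x (y1.trans hx.1) hx.2) hσ
    rw [H56.euclid h g1, zero_sub, abs_neg] at p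
    have := abs_lt.1 (hs (b - d) b c d e f _ y b c d e f t (by rw [abs_lt]; constructor <;> linarith)
      (by simpa) (by simpa) (by simpa) (by simpa) (by simpa) e4)
    rw [← p, ← e1]
    linarith [neg_abs_le (U y b c d e f t)]
  have cX : ∀ t, ContinuousAt (fun y => sX y b c d e f t) (b - d) := fun t => by
    unfold sX; fun_prop
  have cY : ∀ t, ContinuousAt (fun y => sY y b c d e f t) (b - d) := fun t => by
    unfold sY; fun_prop
  rcases d1 with g | g
  · filter_upwards [nhdsWithin_le_nhds ((cX _).eventually_lt (cY _) g), Ioo_mem_nhdsGT m1,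
      Ioo_mem_nhdsGT (lt_add_of_pos_right (b - d) d0)] with y g1 g3 g4
    obtain ⟨l, r, n1, n2, n3, n4, n5, -⟩ :=
      (h.low h1 h2 g3.1 (by linarith [g3.2])).loc (gl y g3.1 g3.2) g1
    have := (n3 ((y + f + c + d) / 2) (by simp [sY])).1 (by linarith [g4.2])
    exact key y g3.1 g3.2 (by linarith [g4.2]) l _ (Or.inr rfl) n4
      (by rw [abs_lt]; constructor <;> linarith [g3.1])
  · filter_upwards [nhdsWithin_le_nhds ((cX _).eventually_lt (cY _) g), Ioo_mem_nhdsGT m1,
      Ioo_mem_nhdsGT (lt_add_of_pos_right (b - d) d0)] with y g1 g3 g4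
    obtain ⟨l, r, n1, n2, n3, n4, n5, -⟩ :=
      (h.low h1 h2 g3.1 (by linarith [g3.2])).loc (gl y g3.1 g3.2) g1
    have := (n3 ((f + b + c) / 2) (by simp [sX])).2 (by linarith)
    exact key y g3.1 g3.2 (by linarith [g4.2]) r _ (Or.inl rfl) n5
      (by rw [abs_lt]; constructor <;> linarith)

/-- the smallest admissible angle -/
noncomputable def x0 (b c d e : ℝ) : ℝ := max |b - d| |c - e|

/-- the only point of the range of summation at the smallest angle -/
noncomputable def s0 (b c d e f : ℝ) : ℝ := max ((f + b + c) / 2) ((f + d + e) / 2)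

theorem bd (h : Reg z b c d e f) (g1 : gd z b c d e f = 0)
    (hg : ∀ x, 0 ≤ x → x < z → gd x b c d e f < 0) {ε : ℝ} (hε : 0 < ε) :
    ∀ᶠ y in 𝓝[>] (x0 b c d e),
      |U (x0 b c d e) b c d e f (s0 b c d e f) + ∫ x in y..z, kap b c d e f x| ≤ ε := by
  rw [x0, s0]
  rcases le_total |c - e| |b - d| with k | k
  · rw [max_eq_left k]
    have k1 := abs_le.1 k
    rcases le_total 0 (b - d) with j | j
    · rw [abs_of_nonneg j] at *
      rw [max_eq_left (by linarith)]
      exact bd_A h g1 k1.2 (by linarith) hg hε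
    · rw [abs_of_nonpos j] at *
      rw [max_eq_right (by linarith), neg_sub, ← U_sw12, ← kap_sw12]
      exact bd_A h.sw12 (gd_sw12 ▸ g1) (by linarith) (by linarith)
        (fun x p q => gd_sw12 ▸ hg x p q) hε
  · rw [max_eq_right k]
    have k1 := abs_le.1 k
    rcases le_total 0 (c - e) with j | j
    · rw [abs_of_nonneg j] at *
      rw [max_eq_left (by linarith), ← U_sw34, ← kap_sw34, add_right_comm f]
      exact bd_A h.sw34 (gd_sw34 ▸ g1) (by linarith) (by linarith)
        (fun x p q => gd_sw34 ▸ hg x p q) hε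
    · rw [abs_of_nonpos j] at *
      rw [max_eq_right (by linarith), neg_sub, ← U_sw34, ← kap_sw34, ← U_sw12, ← kap_sw12,
        add_right_comm f]
      exact bd_A h.sw34.sw12 (gd_sw12 ▸ gd_sw34 ▸ g1) (by linarith) (by linarith)
        (fun x p q => gd_sw12 ▸ gd_sw34 ▸ hg x p q) hε

theorem reg_low (h : Reg z b c d e f) (hy : x0 b c d e < y) (hz : y ≤ z) : Reg y b c d e f := by
  obtain ⟨t1, t2, ⟨k1, k2, k3, k4⟩, ⟨k5, k6, k7, k8⟩⟩ := h
  rw [x0, max_lt_iff, abs_lt, abs_lt] at hy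
  exact ⟨t1, t2, ⟨by linarith, by linarith, by linarith, by linarith⟩,
    ⟨by linarith, by linarith, by linarith, by linarith⟩⟩

theorem x0_lt (h : Reg z b c d e f) : x0 b c d e < z := by
  obtain ⟨t1, t2, ⟨k1, k2, k3, k4⟩, ⟨k5, k6, k7, k8⟩⟩ := h
  rw [x0, max_lt_iff, abs_lt, abs_lt]
  exact ⟨⟨by linarith, by linarith⟩, by linarith, by linarith⟩

theorem x0_nonneg : 0 ≤ x0 b c d e := (abs_nonneg _).trans (le_max_left _ _)

theorem cA_x0 : cA b c d e (x0 b c d e) = 0 := by
  rw [x0, cA]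
  rcases le_total |c - e| |b - d| with k | k
  · rw [max_eq_left k, cos_abs, sub_self, zero_mul]
  · rw [max_eq_right k, cos_abs, sub_self, mul_zero]

theorem cB_x0 (h : Reg z b c d e f) (hg : ∀ x, 0 ≤ x → x < z → gd x b c d e f < 0) :
    cB b c d e (x0 b c d e) (x0 b c d e) f ≠ 0 := by
  have l := x0_lt h
  have g := hg _ x0_nonneg l
  have p : 0 < x0 b c d e := x0_nonneg.lt_of_ne fun k => by
    have k1 : |b - d| ≤ 0 := k ▸ le_max_left _ _
    have k2 : |c - e| ≤ 0 := k ▸ le_max_right _ _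
    obtain rfl : b = d := sub_eq_zero.1 (abs_nonpos_iff.1 k1)
    obtain rfl : c = e := sub_eq_zero.1 (abs_nonpos_iff.1 k2)
    rw [← k, gd, gdet, cos_zero] at g
    linarith
  have s := sin_pos_of_pos_of_lt_pi p (l.trans h.t3.mem.2)
  have q := cof_sq (cos (x0 b c d e)) (cos b) (cos c) (cos d) (cos e) (cos f)
  rw [← cA_cC, cA_x0, zero_mul, ← sin_sq] at q
  generalize x0 b c d e = x at *
  have e1 : cB b c d e x x f =
      -(2 * sin x * cof (cos x) (cos b) (cos c) (cos d) (cos e) (cos f)) := by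
    simp only [cB, cof, sin_add, sin_sub]
    have := sin_sq_add_cos_sq x
    grind
  rw [e1, neg_ne_zero]
  refine mul_ne_zero (by positivity) fun k => ?_
  rw [k] at q
  nlinarith [mul_pos (neg_pos.2 g) (pow_pos s 2), show gd x b c d e f = gdet _ _ _ _ _ _ from rfl]

theorem term_est' {C : ℕ → Col} (L : Lim5 C b c d e f) (La : Tendsto (fun m => an m (C m).a) atTop (𝓝 a))
    (h : ∀ᶠ m in atTop, (C m).Ad m) {ε : ℝ} (hε : 0 < ε) : ∀ᶠ m in atTop, ∀ z, (C m).Rg m z →
      √|(C m).P m| * (C m).term m z ≠ 0 ∧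
      |hb m * log (√|(C m).P m| * (C m).term m z) - U a b c d e f (hb m * (z + 2))| < ε := by
  obtain ⟨s, s0, hs⟩ := U_uc (half_pos hε)
  obtain ⟨t, t0, ht⟩ := Metric.uniformContinuous_iff.1 lob_uc (ε / 40) (by positivity)
  have E : ∀ {x : ℕ → ℝ} {y : ℝ}, Tendsto x atTop (𝓝 y) → ∀ᶠ m in atTop, |x m - y| < s :=
    fun hx => Metric.tendsto_nhds.1 hx s s0
  filter_upwards [h, fa_asym (ε := ε / 40) (by positivity), hb_lt t0, E La, E L.b, E L.c,
    E L.d, E L.e, E L.f] with m G F h0 ea eb ec ed ee ef z hz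
  generalize C m = D at *
  have k := hs _ _ _ _ _ _ (hb m * (z + 2)) _ _ _ _ _ _ (hb m * (z + 2)) ea eb ec ed ee ef (by simpa)
  obtain ⟨r1, r2, r3, r4, r5, r6, r7⟩ := D.real
  obtain ⟨z1, z2, z3, z4, z5, z6, z7, z8⟩ := hz
  unfold Ad at G
  have j1 := D.t1
  have j2 := D.t2
  have j3 := D.t3
  have j4 := D.t4
  have j5 := D.q1
  have j6 := D.q2
  have j7 := D.q3
  have p := hb_pos m
  have N : ∀ n : ℤ, n ≤ 2 * m → fa m n ≠ 0 := fun n => fa_ne
  have W : ∀ x y, x = y + hb m / 2 → |lob x - lob y| < ε / 40 := fun x y hx =>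
    ht (by rw [dist_eq, hx, add_sub_cancel_left, abs_of_pos (half_pos p)]; linarith)
  have V : ∀ (T : ℤ) (x : ℝ), 0 ≤ T → T ≤ 2 * m - 1 → x = hb m * (T + 3 / 2) →
      |hb m * log (fa m (2 * m - 1 - T)) - lob x| < ε / 40 := fun T x g1 g2 hx => by
    have := F (2 * m - 1 - T) (-x + (2 : ℤ) * π) (by omega) (by omega)
      (by push_cast; linarith [hb_mul m])
    rwa [lob_int, lob_neg] at this
  set ξ := hb m * (z + 2) with hξ
  have a1 := F (z - D.T1) (ξ - (an m D.f + an m D.b + an m D.c) / 2) (by omega) (by omega)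
    (by push_cast; simp only [hξ, an, r1]; ring)
  have a2 := F (z - D.T2) (ξ - (an m D.f + an m D.d + an m D.e) / 2) (by omega) (by omega)
    (by push_cast; simp only [hξ, an, r2]; ring)
  have a3 := F (z - D.T3) (ξ - (an m D.a + an m D.b + an m D.d) / 2) (by omega) (by omega)
    (by push_cast; simp only [hξ, an, r3]; ring)
  have a4 := F (z - D.T4) (ξ - (an m D.a + an m D.c + an m D.e) / 2) (by omega) (by omega)
    (by push_cast; simp only [hξ, an, r4]; ring)
  have a5 := F (D.Q1 - z) _ (by omega) (by omega) rfl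
  have a6 := F (D.Q2 - z) _ (by omega) (by omega) rfl
  have a7 := F (D.Q3 - z) _ (by omega) (by omega) rfl
  have a8 := V z _ (by omega) z8 rfl
  have b5 := W (hb m * ((D.Q1 - z : ℤ) + 1 / 2))
    ((an m D.a + an m D.f + an m D.b + an m D.e) / 2 - ξ)
    (by push_cast; simp only [hξ, an, r5]; ring)
  have b6 := W (hb m * ((D.Q2 - z : ℤ) + 1 / 2))
    ((an m D.a + an m D.f + an m D.c + an m D.d) / 2 - ξ)
    (by push_cast; simp only [hξ, an, r6]; ring)
  have b7 := W (hb m * ((D.Q3 - z : ℤ) + 1 / 2))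
    ((an m D.b + an m D.c + an m D.d + an m D.e) / 2 - ξ)
    (by push_cast; simp only [hξ, an, r7]; ring)
  have b8 := W ξ (hb m * (z + 3 / 2)) (by rw [hξ]; ring)
  have c1 := F (D.Q1 - D.T1) ((an m D.a + an m D.e - an m D.c) / 2) (by omega) (by omega)
    (by push_cast; simp only [an, r1, r5]; ring)
  have c2 := F (D.Q1 - D.T2) ((an m D.a + an m D.b - an m D.d) / 2) (by omega) (by omega)
    (by push_cast; simp only [an, r2, r5]; ring)
  have c3 := F (D.Q2 - D.T1) ((an m D.a + an m D.d - an m D.b) / 2) (by omega) (by omega)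
    (by push_cast; simp only [an, r1, r6]; ring)
  have c4 := F (D.Q2 - D.T2) ((an m D.a + an m D.c - an m D.e) / 2) (by omega) (by omega)
    (by push_cast; simp only [an, r2, r6]; ring)
  have c5 := F (D.Q3 - D.T3) ((an m D.c + an m D.e - an m D.a) / 2) (by omega) (by omega)
    (by push_cast; simp only [an, r3, r7]; ring)
  have c6 := F (D.Q3 - D.T4) ((an m D.b + an m D.d - an m D.a) / 2) (by omega) (by omega)
    (by push_cast; simp only [an, r4, r7]; ring)
  have c7 := F (D.Q1 - D.T3) ((an m D.f + an m D.e - an m D.d) / 2) (by omega) (by omega)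
    (by push_cast; simp only [an, r3, r5]; ring)
  have c8 := F (D.Q1 - D.T4) ((an m D.f + an m D.b - an m D.c) / 2) (by omega) (by omega)
    (by push_cast; simp only [an, r4, r5]; ring)
  have c9 := F (D.Q2 - D.T3) ((an m D.f + an m D.c - an m D.b) / 2) (by omega) (by omega)
    (by push_cast; simp only [an, r3, r6]; ring)
  have c10 := F (D.Q2 - D.T4) ((an m D.f + an m D.d - an m D.e) / 2) (by omega) (by omega)
    (by push_cast; simp only [an, r4, r6]; ring)
  have c11 := F (D.Q3 - D.T1) ((an m D.d + an m D.e - an m D.f) / 2) (by omega) (by omega)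
    (by push_cast; simp only [an, r1, r7]; ring)
  have c12 := F (D.Q3 - D.T2) ((an m D.b + an m D.c - an m D.f) / 2) (by omega) (by omega)
    (by push_cast; simp only [an, r2, r7]; ring)
  have d1 := V D.T1 ((an m D.f + an m D.b + an m D.c) / 2) (by omega) (by omega)
    (by simp only [an, r1]; ring)
  have d2 := V D.T2 ((an m D.f + an m D.d + an m D.e) / 2) (by omega) (by omega)
    (by simp only [an, r2]; ring)
  have d3 := V D.T3 ((an m D.a + an m D.b + an m D.d) / 2) (by omega) (by omega)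
    (by simp only [an, r3]; ring)
  have d4 := V D.T4 ((an m D.a + an m D.c + an m D.e) / 2) (by omega) (by omega)
    (by simp only [an, r4]; ring)
  have I : ∀ n : ℤ, 0 ≤ n → ig m n = (fa m n)⁻¹ := fun n hn => if_pos hn
  have P0 : D.P m ≠ 0 := by
    rw [P]; repeat' apply mul_ne_zero
    all_goals exact N _ (by omega)
  have T0 : D.term m z ≠ 0 := by
    rw [term]; repeat' apply mul_ne_zero
    all_goals (rw [I _ (by omega)]; exact inv_ne_zero (N _ (by omega)))
  have S0 := (sqrt_pos.2 (abs_pos.2 P0)).ne'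
  refine ⟨mul_ne_zero S0 T0, ?_⟩
  rw [log_mul S0 T0, log_sqrt (abs_nonneg _), log_abs]
  simp only [term, P, ne_eq, mul_eq_zero, not_or] at P0 T0 ⊢
  simp (disch := simp only [ne_eq, mul_eq_zero, P0, T0, or_self, not_false_eq_true]) only [log_mul]
  simp (disch := omega) only [I, log_inv]
  simp only [U, dl, abs_lt] at *
  constructor <;> linarith

end Pool.Agent.MP_b0afd3_gt.H79
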