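import Pool.Agent.MP_b0afd3_gt.H80.Defs

set_option autoImplicit false

namespace Pool.Agent.MP_b0afd3_gt.H79

open Real Filter Topology Pool.Agent.MP_b0afd3_gt.H80

/-- With `r = 2 m + 1`, the angle `2 π c / r` of the colour tends to `π + θ` or to `π - θ`. -/
def Conv (c : ℕ → ℕ) (θ : ℝ) : Prop :=
  Tendsto (fun m : ℕ => 2 * π * c m / (2 * m + 1 : ℕ)) atTop (𝓝 (π + θ)) ∨
    Tendsto (fun m : ℕ => 2 * π * c m / (2 * m + 1 : ℕ)) atTop (𝓝 (π - θ))

/-- The bracket of the tetrahedral graph with faces `i, j, k, l`; an edge is named by the two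
faces it separates. -/
noncomputable def piece (r : ℕ) (c : Sym2 ℕ → ℕ) (i j k l : ℕ) : ℝ :=
  bracket r (c s(k, l)) (c s(j, l)) (c s(j, k)) (c s(i, l)) (c s(i, k)) (c s(i, j))

/-- `Trunc n k V P B`: the polyhedron `P` with the faces `0, …, k - 1` (outer normals `n i`) is
obtained from a compact tetrahedron by cutting off vertices one after the other; `V` is its set of
vertices, each given by its three faces, and `B r c` is the absolute value of the bracket of its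
1-skeleton with the colouring `c`. -/
inductive Trunc (n : ℕ → Fin 4 → ℝ) :
    ℕ → Set (ℕ × ℕ × ℕ) → Set (Fin 3 → ℝ) → (ℕ → (Sym2 ℕ → ℕ) → ℝ) → Prop
  | base (p : Fin 4 → Fin 3 → ℝ) : Tetra p ![n 0, n 1, n 2, n 3] →
      Trunc n 4 {(1, 2, 3), (0, 2, 3), (0, 1, 3), (0, 1, 2)} (convexHull ℝ (Set.range p))
        (fun r c => piece r c 0 1 2 3)
  | cut (k : ℕ) (V : Set (ℕ × ℕ × ℕ)) (P : Set (Fin 3 → ℝ)) (B : ℕ → (Sym2 ℕ → ℕ) → ℝ)
      (x y z : ℕ) (q : Fin 4 → Fin 3 → ℝ) : Trunc n k V P B → (x, y, z) ∈ V →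
      Tetra q ![-n k, n x, n y, n z] →
      P ∩ {w | 0 ≤ mink (n k) (lift w)} = convexHull ℝ (Set.range q) →
      Trunc n (k + 1) (V \ {(x, y, z)} ∪ {(k, y, z), (k, x, z), (k, x, y)})
        (P ∩ {w | mink (n k) (lift w) ≤ 0}) (fun r c => B r c * piece r c k x y z)

end Pool.Agent.MP_b0afd3_gt.H79
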