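import Pool.Agent.MP_b0afd3_gt.H80.Final

set_option autoImplicit false

namespace Pool.Agent.MP_b0afd3_gt.H79

open Real Filter Topology Pool.Agent.MP_b0afd3_gt.H80 Col

theorem rho_quad {x : ℝ} (h : 1 ≤ |x|) : rho x ^ 2 + 1 = 2 * |x| * rho x ∧ |x| ≤ rho x := by
  have h1 := sq_sqrt (show 0 ≤ x ^ 2 - 1 by nlinarith [sq_abs x])
  rw [rho_eq h]
  exact ⟨by nlinarith [sq_abs x], by linarith [sqrt_nonneg (x ^ 2 - 1)]⟩

theorem low_step {u0 u1 u2 x0 x1 η κ δ : ℝ} (h : |u2 - 2 * x1 * u1 + u0| ≤ η * (|u1| + |u0|))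
    (h01 : |u0| ≤ |u1|) (k0 : 1 + κ ≤ |x0|) (k1 : 1 + κ ≤ |x1|) (h2 : rho x0 ≤ rho x1 + η)
    (h3 : 0 ≤ η) (h4 : 3 * η ≤ δ * κ) (h5 : 0 < κ) (h6 : δ ≤ 1) :
    |u1| ≤ |u2| ∧
      (1 - δ) * rho x1 * (rho x0 * |u1| - |u0|) ≤ rho x1 * |u2| - |u1| := by
  obtain ⟨q1, q2⟩ := rho_quad (x := x1) (by linarith)
  obtain ⟨-, q3⟩ := rho_quad (x := x0) (by linarith)
  have a1 : 2 * |x1| * |u1| ≤ |u2| + |u0| + η * (|u1| + |u0|) := by
    have e1 := abs_sub (u2 + u0) (u2 - 2 * x1 * u1 + u0)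
    rw [show u2 + u0 - (u2 - 2 * x1 * u1 + u0) = 2 * x1 * u1 by ring, abs_mul, abs_mul,
      abs_two] at e1
    linarith [abs_add_le u2 u0]
  have n1 := abs_nonneg u1
  have n0 := abs_nonneg u0
  generalize |u0| = A at *
  generalize |u1| = B at *
  generalize |u2| = C at *
  generalize |x0| = s at *
  generalize |x1| = t at *
  generalize rho x0 = r at *
  generalize rho x1 = r' at *
  have a2 : η * (B + A) ≤ 2 * η * B := by nlinarith
  have a3 : η ≤ κ := by nlinarith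
  have a4 : κ * B ≤ r * B - A := by nlinarith
  have a5 : 3 * η * B ≤ δ * (r * B - A) := by
    have : 0 ≤ δ := by nlinarith
    nlinarith
  refine ⟨by nlinarith, ?_⟩
  have a6 : (1 - δ) * (r * B - A) ≤ r' * B - A - 2 * η * B := by nlinarith
  have a7 : r' * (2 * t * B) ≤ r' * (C + A + 2 * η * B) :=
    mul_le_mul_of_nonneg_left (by linarith) (by linarith)
  have a8 := mul_le_mul_of_nonneg_left a6 (show 0 ≤ r' by linarith)
  have a9 : r' * (2 * t * B) = (r' ^ 2 + 1) * B := by rw [q1]; ring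
  nlinarith

theorem grow_low {β : ℝ → ℝ} {x1 x2 : ℝ} (hβ : ContinuousOn β (Set.Icc x1 x2))
    (h1 : ∀ t ∈ Set.Icc x1 x2, 1 < |β t|) (hx : x1 ≤ x2) {ε : ℝ} (hε : 0 < ε) :
    ∃ η > 0, ∀ᶠ h in 𝓝[>] (0 : ℝ), ∀ (y : ℝ) (N : ℕ) (u : ℕ → ℝ), x1 ≤ y → y + 2 * h * N ≤ x2 →
      (∀ n < N, |u (n + 2) - 2 * β (y + 2 * h * (n + 1)) * u (n + 1) + u n| ≤
        η * (|u (n + 1)| + |u n|)) → |u 0| ≤ |u 1| →
      exp (((∫ t in y..y + 2 * h * N, log (rho (β t)) / 2) - ε) / h) * |u 0| ≤ |u (N + 1)| := by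
  obtain ⟨w, hw, hmin⟩ := (isCompact_Icc (a := x1) (b := x2)).exists_isMinOn ⟨x1, le_rfl, hx⟩
    hβ.abs
  obtain ⟨κ, k0, k1, hκ⟩ : ∃ κ > 0, κ ≤ 1 ∧ ∀ t ∈ Set.Icc x1 x2, 1 + κ ≤ |β t| :=
    ⟨min 1 (|β w| - 1), lt_min one_pos (by linarith [h1 w hw]), min_le_left _ _, fun t ht => by
      linarith [min_le_right 1 (|β w| - 1), show |β w| ≤ |β t| from hmin ht]⟩
  obtain ⟨δ, d0, d1, d2⟩ : ∃ δ > 0, δ ≤ 1 / 2 ∧ δ * (3 * |x2 - x1|) ≤ ε := by
    refine ⟨min (1 / 2) (ε / (3 * |x2 - x1| + 1)), by positivity, min_le_left _ _, ?_⟩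
    have := (le_div_iff₀ (by positivity)).1 (min_le_right (1 / 2) (ε / (3 * |x2 - x1| + 1)))
    nlinarith [lt_min one_half_pos (show 0 < ε / (3 * |x2 - x1| + 1) by positivity)]
  have c1 : ContinuousOn (fun t => rho (β t)) (Set.Icc x1 x2) := rho_cont.comp_continuousOn hβ
  have c2 : ContinuousOn (fun t => log (rho (β t))) (Set.Icc x1 x2) :=
    c1.log fun t _ => (zero_lt_one.trans_le (one_le_rho _)).ne'
  obtain ⟨R, hR⟩ := isCompact_Icc.exists_bound_of_continuousOn c1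
  obtain ⟨s, s0, hs⟩ := Metric.uniformContinuousOn_iff.1
    (isCompact_Icc.uniformContinuousOn_of_continuous (c1.prodMk c2)) (δ * κ / 3) (by positivity)
  have t1 : Tendsto (fun h : ℝ => exp (ε / 2 * h⁻¹)) (𝓝[>] 0) atTop :=
    tendsto_exp_atTop.comp (tendsto_inv_nhdsGT_zero.const_mul_atTop (half_pos hε))
  refine ⟨δ * κ / 3, by positivity, ?_⟩
  filter_upwards [Ioo_mem_nhdsGT (half_pos s0), t1.eventually_ge_atTop (R / κ)]
    with h hh hC y N u y1 y2 hu u01
  have h0 := hh.1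
  have mem : ∀ n ≤ N, y + 2 * h * n ∈ Set.Icc x1 x2 := fun n hn => by
    have : (n : ℝ) ≤ N := by exact_mod_cast hn
    exact ⟨by linarith [show 0 ≤ 2 * h * n by positivity], by nlinarith⟩
  have key : ∀ n ≤ N, |u n| ≤ |u (n + 1)| ∧
      exp ((∫ t in y..y + 2 * h * n, log (rho (β t)) / 2) / h - 3 * δ * n) * (κ * |u 0|) ≤
        rho (β (y + 2 * h * n)) * |u (n + 1)| - |u n| := by
    intro n hn
    induction n with
    | zero =>
      have m0 : y ∈ Set.Icc x1 x2 := by simpa using mem 0 N.zero_le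
      have := (rho_quad (x := β y) (by linarith [hκ y m0])).2
      refine ⟨u01, ?_⟩
      simp only [Nat.cast_zero, mul_zero, add_zero, intervalIntegral.integral_same, zero_div,
        sub_zero, exp_zero, one_mul, zero_add]
      nlinarith [hκ y m0, abs_nonneg (u 0)]
    | succ n ih =>
      obtain ⟨i2, i3⟩ := ih (by omega)
      have m0 := mem n (by omega)
      have m1 := mem (n + 1) hn
      have sub : Set.uIcc (y + 2 * h * n) (y + 2 * h * (n + 1 : ℕ)) ⊆ Set.Icc x1 x2 :=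
        Set.uIcc_subset_Icc m0 m1
      have le : y + 2 * h * n ≤ y + 2 * h * (n + 1 : ℕ) := by push_cast; linarith
      have near : ∀ t ∈ Set.Icc (y + 2 * h * n) (y + 2 * h * (n + 1 : ℕ)),
          |rho (β (y + 2 * h * (n + 1 : ℕ))) - rho (β t)| < δ * κ / 3 ∧
          |log (rho (β (y + 2 * h * (n + 1 : ℕ)))) - log (rho (β t))| < δ * κ / 3 := fun t ht => by
        have := hs _ m1 t (sub (Set.Icc_subset_uIcc ht)) (by
          rw [dist_eq, abs_lt]; push_cast at ht ⊢; constructor <;> linarith [ht.1, ht.2, hh.2])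
        simp only [Prod.dist_eq, max_lt_iff] at this
        simpa only [dist_eq_norm, Function.comp, norm_eq_abs] using this
      have n1 := near _ ⟨le_rfl, le⟩
      have st := low_step (x1 := β (y + 2 * h * (n + 1 : ℕ))) (by simpa using hu n hn) i2
        (hκ _ m0) (hκ _ m1) (by linarith [abs_lt.1 n1.1]) (by positivity) (by linarith) k0
        (show δ ≤ 1 by linarith)
      have i1 := (c2.div_const 2).mono sub |>.intervalIntegrable (μ := MeasureTheory.volume)
      have i0 := (c2.div_const 2).mono (Set.uIcc_subset_Icc (by simpa using mem 0 N.zero_le) m0)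
        |>.intervalIntegrable (μ := MeasureTheory.volume)
      have up := intervalIntegral.integral_mono_on le i1 (intervalIntegrable_const
        (c := (log (rho (β (y + 2 * h * (n + 1 : ℕ)))) + δ) / 2)) fun t ht => by
          have := abs_lt.1 (near t ht).2
          nlinarith
      rw [intervalIntegral.integral_const, smul_eq_mul] at up
      refine ⟨st.1, le_trans ?_ st.2⟩
      have r1 := one_le_rho (β (y + 2 * h * (n + 1 : ℕ)))
      refine le_trans ?_ (mul_le_mul_of_nonneg_left i3 (mul_nonneg (by linarith) (by linarith)))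
      rw [← mul_assoc (_ * _)]
      refine mul_le_mul_of_nonneg_right ?_ (by positivity)
      have e1 : exp (-(2 * δ)) ≤ 1 - δ := by
        rw [exp_neg, inv_le_comm₀ (exp_pos _) (by linarith), inv_eq_one_div,
          div_le_iff₀ (by linarith)]
        nlinarith [add_one_le_exp (2 * δ)]
      refine le_trans ?_ (mul_le_mul_of_nonneg_right (mul_le_mul_of_nonneg_right e1
        (by linarith)) (exp_pos _).le)
      rw [← exp_log (zero_lt_one.trans_le r1), ← exp_add, ← exp_add, exp_le_exp,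
        ← intervalIntegral.integral_add_adjacent_intervals i0 i1, add_div]
      have : (∫ t in y + 2 * h * n..y + 2 * h * (n + 1 : ℕ), log (rho (β t)) / 2) / h ≤
          log (rho (β (y + 2 * h * (n + 1 : ℕ)))) + δ := by
        rw [div_le_iff₀ h0]; push_cast at up ⊢; linarith
      push_cast at this ⊢
      linarith
  obtain ⟨-, kN⟩ := key N le_rfl
  have rN := (le_abs_self _).trans (hR _ (mem N le_rfl))
  have k4 : 3 * δ * N ≤ ε / 2 * h⁻¹ := by
    rw [← div_eq_mul_inv, le_div_iff₀ h0]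
    nlinarith [le_abs_self (x2 - x1)]
  rw [div_le_iff₀ k0] at hC
  have k5 : exp (((∫ t in y..y + 2 * h * N, log (rho (β t)) / 2) - ε) / h) * exp (ε / 2 * h⁻¹) ≤
      exp ((∫ t in y..y + 2 * h * N, log (rho (β t)) / 2) / h - 3 * δ * N) := by
    rw [← exp_add, exp_le_exp, sub_div, div_eq_mul_inv ε h]
    linarith
  have k6 : rho (β (y + 2 * h * N)) * |u (N + 1)| ≤ exp (ε / 2 * h⁻¹) * κ * |u (N + 1)| :=
    mul_le_mul_of_nonneg_right (rN.trans hC) (abs_nonneg _)
  have k7 := mul_le_mul_of_nonneg_right k5 (show 0 ≤ κ * |u 0| by positivity)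
  refine le_of_mul_le_mul_left (a := exp (ε / 2 * h⁻¹) * κ) ?_ (by positivity)
  nlinarith [abs_nonneg (u N)]

variable {C : ℕ → Col} {b c d e f p q : ℝ}

theorem transport_low (L : Lim5 C b c d e f) (hp : Reg p b c d e f) (hq : Reg q b c d e f)
    (hpq : p < q) {z : ℝ} (hz : q < z) (hg : ∀ x, 0 ≤ x → x < z → gd x b c d e f < 0)
    {n : ℕ → ℤ} (Lp : Tendsto (fun m => an m (C m).a) atTop (𝓝 p))
    (Lq : Tendsto (fun m => an m ((C m).sh (n m)).a) atTop (𝓝 q)) {ε : ℝ} (hε : 0 < ε) :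
    ∀ᶠ m in atTop, |(C m).u m| ≤ |((C m).sh 1).u m| →
      exp (((∫ x in p..q, kap b c d e f x) - ε) / hb m) * |(C m).u m| ≤
        |((C m).sh (n m + 1)).u m| := by
  obtain ⟨x1, h1, r1⟩ := hp.ev.exists_lt
  obtain ⟨x2, h2, r2, g2'⟩ := (hq.ev.and (gt_mem_nhds hz)).exists_gt
  have le : x1 ≤ x2 := by linarith
  have R : ∀ x ∈ Set.Icc x1 x2, Reg x b c d e f := fun x hx => r1.between r2 (Set.Icc_subset_uIcc hx)
  obtain ⟨η, η0, G⟩ := grow_low (β := fun x => be x b c d e f) (x1 := x1) (x2 := x2) (fun x hx =>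
    (R x hx).be_cont.continuousWithinAt) (fun x hx => (R x hx).be_gt
      (hg x (R x hx).t3.mem.1.le (hx.2.trans_lt g2'))) le (half_pos hε)
  have T := ((hp.K_cont hq).tendsto.comp Lq).sub ((hp.K_cont hp).tendsto.comp Lp)
  rw [intervalIntegral.integral_same, sub_zero] at T
  filter_upwards [(tendsto_nhdsWithin_iff.2 ⟨hb_tendsto, .of_forall hb_pos⟩).eventually G,
    rec_est L r1 r2 η0, Lp.eventually (lt_mem_nhds h1), Lq.eventually (gt_mem_nhds h2),
    Lp.eventually_lt Lq hpq, T.eventually (lt_mem_nhds (sub_lt_self _ (half_pos hε))),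
    Lp.eventually hp.ev, Lq.eventually hq.ev] with m g1 g2 g3 g4 g5 g6 g7 g8 g9
  have h0 := hb_pos m
  rw [an_sh] at g4 g5
  obtain ⟨N, hN⟩ := Int.eq_ofNat_of_zero_le (show 0 ≤ n m by
    rw [← @Int.cast_nonneg_iff ℝ]; nlinarith)
  have e0 : (C m).sh 0 = C m := by simp [sh]
  have k := g1 (an m (C m).a) N (fun j => ((C m).sh j).u m) g3.le (by simpa [hN] using g4.le)
    (fun j hj => by
      have j1 : (j : ℝ) + 1 ≤ N := by exact_mod_cast hj
      have := g2 (j + 1) (by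
        rw [an_sh, Set.uIcc_of_le le]
        simp only [hN, Int.cast_natCast] at g4
        push_cast
        exact ⟨by linarith [show 0 ≤ 2 * hb m * (j + 1) by positivity], by nlinarith⟩)
      rw [an_sh, add_sub_cancel_right, add_assoc] at this
      simpa using this) (by simpa [e0] using g9)
  simp only [Function.comp, intervalIntegral.integral_interval_sub_left (hp.kap_int g8)
    (hp.kap_int g7)] at g6
  simp only [hN, an_sh, Int.cast_natCast, Nat.cast_add, Nat.cast_one, Nat.cast_zero,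
    e0] at k g6 ⊢
  refine le_trans (mul_le_mul_of_nonneg_right
    (exp_le_exp.2 (div_le_div_of_nonneg_right ?_ h0.le)) (by positivity)) k
  simp only [kap] at g6 ⊢
  linarith

end Pool.Agent.MP_b0afd3_gt.H79
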