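import Pool.Agent.MP_b0afd3_gt.H79.Bd

set_option autoImplicit false

namespace Pool.Agent.MP_b0afd3_gt.H79

open Real Filter Topology Pool.Agent.MP_b0afd3_gt.H80 Col

variable {a b c d e f x y z : ℝ}

theorem nn_a (h1 : y - z ≤ x) (h2 : z - y ≤ x) (h3 : x ≤ π) : 0 ≤ cos (y - z) - cos x := by
  rw [← cos_abs (y - z), sub_nonneg]
  exact cos_le_cos_of_nonneg_of_le_pi (abs_nonneg _) h3 (abs_le.2 ⟨by linarith, h1⟩)

theorem nn_c (h0 : 0 ≤ x) (h1 : x ≤ y + z) (h2 : x + y + z ≤ 2 * π) : 0 ≤ cos x - cos (y + z) := by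
  rw [cos_sub_c]
  exact mul_nonneg (mul_nonneg two_pos.le (sin_nonneg_of_nonneg_of_le_pi (by linarith) (by linarith)))
    (sin_nonneg_of_nonneg_of_le_pi (by linarith) (by linarith))

theorem nn_int {m : ℕ} {t y z : ℤ} (h1 : y - z ≤ t) (h2 : z - y ≤ t) (h3 : t ≤ y + z)
    (h4 : t + y + z + 2 ≤ 2 * m) :
    0 ≤ cos (an m y - an m z) - cos (hb m * t) ∧ 0 ≤ cos (hb m * t) - cos (an m y + an m z) := by
  have p := hb_pos m
  have q := hb_mul m
  have g1 : (y : ℝ) - z ≤ t := by exact_mod_cast h1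
  have g2 : (z : ℝ) - y ≤ t := by exact_mod_cast h2
  have g3 : (t : ℝ) ≤ y + z := by exact_mod_cast h3
  have g4 : (t : ℝ) + y + z + 2 ≤ 2 * m := by exact_mod_cast h4
  simp only [an]
  exact ⟨nn_a (by nlinarith) (by nlinarith) (by nlinarith),
    nn_c (by nlinarith) (by nlinarith) (by nlinarith)⟩

/-- the shift leading to the smallest admissible colour -/
def n0 (D : Col) : ℤ := max D.T1 D.T2 - min D.Q1 D.Q2

theorem rec_layer {Y : Col} {m : ℕ} (G : Y.Good m) {k : ℤ} (hk : n0 Y ≤ k) (hk' : k ≤ 0) :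
    al (an m Y.b) (an m Y.c) (an m Y.d) (an m Y.e) (an m (Y.sh k).a) (hb m) * (Y.sh (k + 1)).u m +
      cB (an m Y.b) (an m Y.c) (an m Y.d) (an m Y.e) (an m (Y.sh k).a - hb m)
        (an m (Y.sh k).a + hb m) (an m Y.f + hb m) * (Y.sh k).u m +
      al (an m Y.b) (an m Y.c) (an m Y.d) (an m Y.e) (an m (Y.sh k).a) (-hb m) *
        (Y.sh (k - 1)).u m = 0 ∧ (k = n0 Y → (Y.sh (k - 1)).u m = 0) := by
  have i1 := G.t1.int
  have i2 := G.t2.int
  have i3 := G.t3.int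
  have i4 := G.t4.int
  have j1 := Y.t1
  have j2 := Y.t2
  have j3 := Y.t3
  have j4 := Y.t4
  have j5 := Y.q1
  have j6 := Y.q2
  have j7 := Y.q3
  rw [n0] at *
  have Z : k = max Y.T1 Y.T2 - min Y.Q1 Y.Q2 → (Y.sh (k - 1)).S m = 0 := fun h =>
    Finset.sum_eq_zero fun z _ => term_zero _ _ fun g => by
      simp only [Rg, sh] at g
      omega
  refine ⟨?_, fun h => by rw [u, Z h, mul_zero]⟩
  obtain ⟨D, hD⟩ : ∃ D, D = Y.sh k := ⟨_, rfl⟩
  have e1 : an m D.a - hb m = hb m * D.a := by rw [an]; ring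
  have e2 : an m D.a + hb m = hb m * (D.a + 2) := by rw [an]; ring
  have e3 : an m Y.f + hb m = hb m * (Y.f + 2) := by rw [an]; ring
  have da : D.a = Y.a + 2 * k := by rw [hD]; rfl
  have p1 := nn_int (m := m) (t := D.a) (y := Y.b) (z := Y.d) (by omega) (by omega) (by omega)
    (by omega)
  have p2 := nn_int (m := m) (t := D.a) (y := Y.c) (z := Y.e) (by omega) (by omega) (by omega)
    (by omega)
  have p3 := nn_int (m := m) (t := D.a + 2) (y := Y.b) (z := Y.d) (by omega) (by omega) (by omega)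
    (by omega)
  have p4 := nn_int (m := m) (t := D.a + 2) (y := Y.c) (z := Y.e) (by omega) (by omega) (by omega)
    (by omega)
  push_cast at p3 p4
  rw [sub_eq_add_neg k, ← sh_sh, ← sh_sh, ← hD]
  rw [sub_eq_add_neg k, ← sh_sh, ← hD] at Z
  simp only [al, sub_neg_eq_add, ← sub_eq_add_neg]
  rw [e1, e2, e3]
  have ok : D.Ok m := by rw [hD]; constructor <;> simp only [sh] <;> omega
  have w1 : 0 ≤ D.T1 := by rw [hD]; simp only [sh]; omega
  have w2 : 0 ≤ D.T2 := by rw [hD]; simp only [sh]; omega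
  have w3 : 1 ≤ D.T3 := by rw [hD]; simp only [sh]; omega
  have w4 : 1 ≤ D.T4 := by rw [hD]; simp only [sh]; omega
  have w5 : D.Q1 < 2 * m := by rw [hD]; simp only [sh]; omega
  have w6 : D.Q2 < 2 * m := by rw [hD]; simp only [sh]; omega
  have w7 : D.Q3 ≤ 2 * m := by rw [hD]; simp only [sh]; omega
  have eb : Y.b = D.b := by rw [hD]; rfl
  have ec : Y.c = D.c := by rw [hD]; rfl
  have ed : Y.d = D.d := by rw [hD]; rfl
  have ee : Y.e = D.e := by rw [hD]; rfl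
  have ef : Y.f = D.f := by rw [hD]; rfl
  rw [eb, ed] at p1 p3
  rw [ec, ee] at p2 p4
  rw [eb, ec, ed, ee, ef]
  rcases hk.eq_or_lt with h | h
  · have k1 := D.P_step m ok
    have k3 := D.S_rec m w1 w2 w3 w4 w5 w6 w7
    have q1 : 0 ≤ cA (an m D.b) (an m D.c) (an m D.d) (an m D.e) (hb m * (D.a + 2)) :=
      mul_nonneg p3.1 p4.1
    have q2 : 0 ≤ cC (an m D.b) (an m D.c) (an m D.d) (an m D.e) (hb m * (D.a + 2)) :=
      mul_nonneg p3.2 p4.2
    have k4 := sqrt_step k1 q2 q1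
    have k6 := mul_self_sqrt q1
    simp only [u, sqrt_mul q1, Z h.symm, mul_zero, add_zero] at k3 ⊢
    linear_combination √|D.P m| * k3 + sin (hb m * D.a) *
      √(cA (an m D.b) (an m D.c) (an m D.d) (an m D.e) (hb m * (D.a + 2))) * (D.sh 1).S m * k4
      + sin (hb m * D.a) * √|D.P m| * (D.sh 1).S m * k6
  · exact D.u_rec m ok (by rw [hD]; constructor <;> simp only [sh] <;> omega) w1 w2 w3 w4 w5 w6 w7
      rfl rfl rfl rfl (mul_nonneg p3.1 p4.1) (mul_nonneg p3.2 p4.2) (mul_nonneg p1.1 p2.1)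
      (mul_nonneg p1.2 p2.2)

theorem dom_step {A B D u0 u1 u2 : ℝ} (h : A * u2 + D * u1 + B * u0 = 0) (h1 : |A| + |B| < |D|)
    (h2 : |u0| ≤ |u1|) : |u1| ≤ |u2| := by
  by_contra! g
  have e := abs_add_le (A * u2) (B * u0)
  rw [show A * u2 + B * u0 = -(D * u1) by linarith, abs_neg, abs_mul, abs_mul, abs_mul] at e
  nlinarith [abs_nonneg A, abs_nonneg B, abs_nonneg u2, mul_le_mul_of_nonneg_left h2 (abs_nonneg B),
    mul_le_mul_of_nonneg_left g.le (abs_nonneg A)]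

variable {C : ℕ → Col}

theorem lim_n0 (L : Lim5 C b c d e f) :
    Tendsto (fun m => an m ((C m).sh (n0 (C m))).a) atTop (𝓝 (x0 b c d e)) := by
  have := (((L.b.sub L.d).abs.max (L.c.sub L.e).abs).add hb_tendsto)
  rw [add_zero] at this
  refine this.congr fun m => ?_
  have j1 := (C m).t1
  have j2 := (C m).t2
  have j5 := (C m).q1
  have j6 := (C m).q2
  have e : ((C m).sh (n0 (C m))).a = max |(C m).b - (C m).d| |(C m).c - (C m).e| := by
    simp only [sh, n0, abs_eq_max_neg]; omega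
  simp only [e, an, ← mul_sub, abs_mul, abs_of_pos (hb_pos m), ← mul_max_of_nonneg _ _ (hb_pos m).le]
  push_cast
  ring_nf

theorem layer (h : Reg z b c d e f) (hg : ∀ x, 0 ≤ x → x < z → gd x b c d e f < 0) :
    ∀ᶠ y in 𝓝[>] (x0 b c d e), ∀ C : ℕ → Col, Lim5 C b c d e f →
      Tendsto (fun m => an m (C m).a) atTop (𝓝 y) → Reg y b c d e f → ∀ᶠ m in atTop,
        |((C m).sh (n0 (C m))).u m| ≤ |(C m).u m| ∧ |(C m).u m| ≤ |((C m).sh 1).u m| := by
  have c1 : ∀ s : ℝ, Tendsto (fun z : (Fin 6 → ℝ) × ℝ =>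
      al (z.1 0) (z.1 1) (z.1 2) (z.1 3) z.2 (s * z.1 5))
      (𝓝 (![b, c, d, e, f, 0], x0 b c d e)) (𝓝 0) := fun s =>
    Continuous.tendsto' (by unfold al cA cC; fun_prop) _ _ (by simp [al, cA_x0])
  have c3 : Tendsto (fun z : (Fin 6 → ℝ) × ℝ => cB (z.1 0) (z.1 1) (z.1 2) (z.1 3) (z.2 - z.1 5)
      (z.2 + z.1 5) (z.1 4 + z.1 5)) (𝓝 (![b, c, d, e, f, 0], x0 b c d e))
      (𝓝 (cB b c d e (x0 b c d e) (x0 b c d e) f)) :=
    Continuous.tendsto' (by unfold cB; fun_prop) _ _ (by simp)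
  have c4 := ((c1 1).abs.add (c1 (-1)).abs).eventually_lt c3.abs (by simpa using cB_x0 h hg)
  rw [nhds_prod_eq] at c4
  obtain ⟨pa, ha, pb, hb', H⟩ := Filter.eventually_prod_iff.1 c4
  obtain ⟨l, r, ⟨l0, r0⟩, hlr⟩ := mem_nhds_iff_exists_Ioo_subset.1 hb'
  filter_upwards [Ioo_mem_nhdsGT r0] with y hy C L La ry
  have T : Tendsto (fun m => ![an m (C m).b, an m (C m).c, an m (C m).d, an m (C m).e, an m (C m).f,
      hb m]) atTop (𝓝 ![b, c, d, e, f, 0]) := by
    rw [tendsto_pi_nhds]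
    intro i
    fin_cases i
    exacts [L.b, L.c, L.d, L.e, L.f, hb_tendsto]
  filter_upwards [T.eventually ha, L.good La ry, (lim_n0 L).eventually (lt_mem_nhds l0),
    La.eventually (gt_mem_nhds hy.2), (lim_n0 L).eventually_lt La hy.1] with m g1 G g2 g3 g4
  generalize C m = Y at *
  have p := hb_pos m
  rw [an_sh] at g2 g4
  obtain ⟨N, hN⟩ := Int.eq_ofNat_of_zero_le (show 0 ≤ -n0 Y by
    have : n0 Y < 0 := by rw [← @Int.cast_lt ℝ]; push_cast; nlinarith
    omega)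
  have key : ∀ j : ℕ, j ≤ N → |(Y.sh (n0 Y)).u m| ≤ |(Y.sh (n0 Y + j)).u m| ∧
      |(Y.sh (n0 Y + j)).u m| ≤ |(Y.sh (n0 Y + j + 1)).u m| := by
    have st : ∀ j : ℕ, j ≤ N → |(Y.sh (n0 Y + j - 1)).u m| ≤ |(Y.sh (n0 Y + j)).u m| →
        |(Y.sh (n0 Y + j)).u m| ≤ |(Y.sh (n0 Y + j + 1)).u m| := fun j hj => by
      have k1 : ((n0 Y + j : ℤ) : ℝ) ≤ 0 := by exact_mod_cast (show n0 Y + j ≤ 0 by omega)
      have k2 : (n0 Y : ℝ) ≤ (n0 Y + j : ℤ) := by exact_mod_cast (show n0 Y ≤ n0 Y + j by omega)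
      have := H g1 (hlr (show an m (Y.sh (n0 Y + j)).a ∈ Set.Ioo l r by
        rw [an_sh]; constructor <;> nlinarith))
      simp only [Matrix.cons_val, one_mul, neg_mul] at this
      exact dom_step (rec_layer G (by omega) (by omega)).1 this
    intro j hj
    induction j with
    | zero =>
      refine ⟨by simp, st 0 hj ?_⟩
      rw [(rec_layer G (k := n0 Y + (0 : ℕ)) (by omega) (by omega)).2 (by simp), abs_zero]
      exact abs_nonneg _
    | succ j ih =>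
      obtain ⟨i1, i2⟩ := ih (by omega)
      refine ⟨by push_cast; rw [← add_assoc]; exact i1.trans i2, st _ hj ?_⟩
      push_cast
      rwa [← add_assoc, add_sub_cancel_right]
  have := key N le_rfl
  rw [← hN, add_neg_cancel, zero_add] at this
  simpa [sh] using this

end Pool.Agent.MP_b0afd3_gt.H79
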