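import Pool.Agent.MP_b0afd3_gt.H79.Layer

set_option autoImplicit false

namespace Pool.Agent.MP_b0afd3_gt.H79

open Real Filter Topology Pool.Agent.MP_b0afd3_gt.H80 Col

variable {a b c d e f x y z : ℝ} {C : ℕ → Col}

theorem x0_cases (b c d e : ℝ) : x0 b c d e = b - d ∨ x0 b c d e = d - b ∨ x0 b c d e = c - e ∨
    x0 b c d e = e - c := by
  rw [x0]
  rcases max_choice |b - d| |c - e| with k | k <;> rw [k]
  · rcases abs_choice (b - d) with j | j <;> simp [j]
  · rcases abs_choice (c - e) with j | j <;> simp [j]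

theorem bd_low (L : Lim5 C b c d e f) (La : Tendsto (fun m => an m (C m).a) atTop (𝓝 y))
    (ry : Reg y b c d e f) {ε : ℝ} (hε : 0 < ε) : ∀ᶠ m in atTop,
      exp ((U (x0 b c d e) b c d e f (s0 b c d e f) - ε) / hb m) ≤ |((C m).sh (n0 (C m))).u m| := by
  have G := L.good La ry
  have A : ∀ᶠ m in atTop, ((C m).sh (n0 (C m))).Ad m ∧
      ((C m).sh (n0 (C m))).Rg m (max (C m).T1 (C m).T2) ∧ 0 ≤ max (C m).T1 (C m).T2 ∧
      max (C m).T1 (C m).T2 < 2 * m + 1 := G.mono fun m G => by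
    generalize C m = Y at *
    have i1 := G.t1.int
    have i2 := G.t2.int
    have i3 := G.t3.int
    have i4 := G.t4.int
    have j1 := Y.t1
    have j2 := Y.t2
    have j3 := Y.t3
    have j4 := Y.t4
    have j5 := Y.q1
    have j6 := Y.q2
    have j7 := Y.q3
    simp only [Ad, Rg, sh, n0]
    omega
  have T : Tendsto (fun m => hb m * ((max (C m).T1 (C m).T2 : ℤ) + 2)) atTop (𝓝 (s0 b c d e f)) :=
    ((half_lim (fun m => (C m).t1) L.f L.b L.c).max
      (half_lim (fun m => (C m).t2) L.f L.d L.e)).congr fun m => by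
        rw [← mul_max_of_nonneg _ _ (hb_pos m).le, max_add_add_right]
        push_cast
        rfl
  have T2 := ((U_cont (b := b) (c := c) (d := d) (e := e)).comp
    (f := fun t : ℝ => (x0 b c d e, f, t)) (by fun_prop)).tendsto _ |>.comp T
  filter_upwards [A, term_est' (L.sh fun m => n0 (C m)) (lim_n0 L) (A.mono fun _ g => g.1)
    (half_pos hε), T2.eventually (lt_mem_nhds (sub_lt_self _ (half_pos hε)))]
    with m ⟨_, g1, g2, g3⟩ g4 g5
  obtain ⟨k1, k2⟩ := g4 _ g1
  obtain ⟨z, hz⟩ := Int.eq_ofNat_of_zero_le g2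
  rw [u_eq, Finset.sum_eq_single z (fun t _ ht => ?_) (fun g => (g ?_).elim), ← hz,
    ← exp_log (abs_pos.2 k1), exp_le_exp, div_le_iff₀ (hb_pos m), log_abs]
  · simp only [Function.comp] at g5
    linarith [(abs_lt.1 k2).1]
  · rw [term_zero _ _ fun g => ht ?_, mul_zero]
    simp only [Rg, sh, n0] at g
    omega
  · rw [Finset.mem_range]
    omega

theorem neg_main (L : Lim5 C b c d e f) (La : Tendsto (fun m => an m (C m).a) atTop (𝓝 a))
    (ha : Reg a b c d e f) (hz : Reg z b c d e f) (haz : a < z) (h0 : gd z b c d e f = 0)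
    (hg : ∀ x, 0 ≤ x → x < z → gd x b c d e f < 0) :
    Tendsto (fun m => hb m * log ((C m).u m)) atTop (𝓝 (-∫ x in a..z, kap b c d e f x)) := by
  rw [Metric.tendsto_nhds]
  intro ε hε
  have e6 : 0 < ε / 6 := by positivity
  obtain ⟨s, s0', hs⟩ := U_uc e6
  obtain ⟨y, y1, y2, y3, y4⟩ := ((bd hz h0 hg e6).and ((layer hz hg).and
    (Eventually.and (Ioo_mem_nhdsGT (x0_lt ha))
      (Ioo_mem_nhdsGT (lt_add_of_pos_right (x0 b c d e) s0'))))).exists
  have ry := reg_low ha y3.1 y3.2.le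
  obtain ⟨n, hn⟩ := exists_sh C y
  have hv : ∀ ξ, (f + b + c) / 2 - s / 4 ≤ ξ → (f + d + e) / 2 - s / 4 ≤ ξ →
      ξ ≤ (y + f + b + e) / 2 + s / 4 → ξ ≤ (y + f + c + d) / 2 + s / 4 →
      U y b c d e f ξ ≤ U (x0 b c d e) b c d e f (s0 b c d e f) + ε / 6 := fun ξ p q r t => by
    have k1 : s0 b c d e f ≤ ξ + s / 4 := max_le (by linarith) (by linarith)
    have k2 : (f + b + c) / 2 ≤ s0 b c d e f := le_max_left _ _
    have k3 : (f + d + e) / 2 ≤ s0 b c d e f := le_max_right _ _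
    have := abs_lt.1 (hs y b c d e f ξ (x0 b c d e) b c d e f (s0 b c d e f)
      (by rw [abs_lt]; constructor <;> linarith [y4.1, y4.2])
      (by simpa) (by simpa) (by simpa) (by simpa) (by simpa) (by
        rw [abs_lt]
        refine ⟨by linarith, ?_⟩
        rcases x0_cases b c d e with k | k | k | k <;> linarith [y4.2]))
    linarith
  have ka := intervalIntegral.integral_add_adjacent_intervals (ry.kap_int ha) (ha.kap_int hz)
  have y5 := abs_le.1 y1
  filter_upwards [u_start (L.sh n) hn ry (by positivity) hv e6,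
    u_start ((L.sh n).sh fun _ => 1) (lim_one hn) ry (by positivity) hv e6, big 2 e6,
    transport (L.sh n) ry ha y3.2 hn (n := fun m => -n m) (by simpa [sh_sh, an_sh] using La) e6,
    transport_low (L.sh n) ry ha y3.2 haz hg hn (n := fun m => -n m - 1) (by
      have := La.sub (hb_tendsto.const_mul 2)
      rw [mul_zero, sub_zero] at this
      exact this.congr fun m => by simp only [an_sh]; push_cast; ring) e6,
    y2 _ (L.sh n) hn ry, bd_low (L.sh n) hn ry e6] with m g1 g2 g3 g4 g5 g6 g7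
  have p := hb_pos m
  have e0 : ((C m).sh (n m)).sh (-n m) = C m := by simp [sh]
  rw [sub_add_cancel] at g5
  rw [e0] at g4 g5
  have k1 := (mul_le_mul_of_nonneg_left (g7.trans g6.1) (exp_pos _).le).trans (g5 g6.2)
  have k2 : 0 < |(C m).u m| := lt_of_lt_of_le (by positivity) k1
  have k3 := (le_add_of_nonneg_right (abs_nonneg _)).trans (g4.trans (mul_le_mul_of_nonneg_left
    ((add_le_add g1 g2).trans_eq (by rw [← add_mul, ← two_mul]) |>.trans
      (mul_le_mul_of_nonneg_right g3 (exp_pos _).le)) (exp_pos _).le))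
  rw [← exp_log k2, ← exp_add, ← exp_add, exp_le_exp, ← add_div, ← add_div, le_div_iff₀ p,
    log_abs] at k3
  rw [← exp_log k2, ← exp_add, exp_le_exp, ← add_div, div_le_iff₀ p, log_abs] at k1
  rw [dist_eq, abs_lt]
  constructor <;> linarith

theorem neg_vol (h : Reg (π - a) b c (π - d) (π - e) f) (hg : gd (π - a) b c (π - d) (π - e) f < 0)
    (hp : PosC (π - a) b c (π - d) (π - e) f) (L : Lim5 C b c d e f)
    (La : Tendsto (fun m => an m (C m).a) atTop (𝓝 a)) :
    Tendsto (fun m => hb m * log ((C m).u m)) atTop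
      (𝓝 (-gvol (cos (π - a)) (cos b) (cos c) (cos (π - d)) (cos (π - e)) (cos f))) := by
  obtain ⟨z, hza, hz, h0, -, gz⟩ := exists_x2 h hg hp.c01
  have R : ∀ x, Reg (π - x) b c (π - d) (π - e) f → Reg x b c d e f :=
    fun x ⟨t1, ⟨i1, i2, i3, i4⟩, ⟨j1, j2, j3, j4⟩, ⟨k1, k2, k3, k4⟩⟩ =>
      ⟨t1, ⟨by linarith, by linarith, by linarith, by linarith⟩,
        ⟨by linarith, by linarith, by linarith, by linarith⟩,
        ⟨by linarith, by linarith, by linarith, by linarith⟩⟩
  have g : ∀ x, gd (π - x) b c (π - d) (π - e) f = gd x b c d e f := fun x => by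
    simp only [gd, gdet, cos_pi_sub]; ring
  have k : ∀ x, kap b c d e f x = kap b c (π - d) (π - e) f (π - x) := fun x => by
    simp only [kap, be, cof, vtx, cos_pi_sub]; ring_nf
  have := neg_main L La (R a h) (z := π - z) (R _ (by simpa using hz)) (by linarith)
    (by rw [← g]; simpa using h0) fun x p q => g x ▸ gz _ (by linarith) (by linarith)
  rwa [funext k, intervalIntegral.integral_comp_sub_left, sub_sub_cancel,
    vol_eq hp h hz hza h0 gz] at this

theorem signs {V : ℝ} (h : Reg a b c d e f) (hV : ∀ C : ℕ → Col, Lim5 C b c d e f →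
      Tendsto (fun m => an m (C m).a) atTop (𝓝 a) →
      Tendsto (fun m => hb m * log ((C m).u m)) atTop (𝓝 V)) {C : ℕ → Col} {a' b' c' d' e' f' : ℝ} (A : ∀ᶠ m in atTop, (C m).Ad m)
    (L : Lim5 C b' c' d' e' f') (La : Tendsto (fun m => an m (C m).a) atTop (𝓝 a'))
    (ha : a' = a ∨ a' = 2 * π - a) (hb' : b' = b ∨ b' = 2 * π - b) (hc : c' = c ∨ c' = 2 * π - c)
    (hd : d' = d ∨ d' = 2 * π - d) (he : e' = e ∨ e' = 2 * π - e) (hf : f' = f ∨ f' = 2 * π - f) :
    Tendsto (fun m => hb m * log ((C m).u m)) atTop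
      (𝓝 V) := by
  wlog k1 : a' = a generalizing C a' b' c' with H
  · obtain ⟨_, a1, a2, a3⟩ := an_fl La ha
    obtain ⟨_, b1, -, b3⟩ := an_fl L.b hb'
    obtain ⟨_, c1, -, c3⟩ := an_fl L.c hc
    refine (H (C := fun m => (C m).fl1 (2 * m - 1)) (A.mono fun m g => g.fl.1.1)
      ⟨b3, c3, L.d, L.e, L.f⟩ a3 a1 b1 c1 (a2 k1)).congr' (A.mono fun m g => ?_)
    simp only [g.fl.1.2]
  clear ha
  wlog k2 : e' = e generalizing C c' e' f' with H
  · obtain ⟨_, e1, e2, e3⟩ := an_fl L.e he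
    obtain ⟨_, f1, -, f3⟩ := an_fl L.f hf
    obtain ⟨_, c1, -, c3⟩ := an_fl L.c hc
    refine (H (C := fun m => (C m).fl2 (2 * m - 1)) (A := A.mono fun m g => g.fl.2.1.1)
      (L := ⟨L.b, c3, L.d, e3, f3⟩) (La := La) (hc := c1) (he := e1) (hf := f1) (e2 k2)).congr'
      (A.mono fun m g => ?_)
    simp only [g.fl.2.1.2]
  clear he
  wlog k3 : d' = d generalizing C b' d' f' with H
  · obtain ⟨_, d1, d2, d3⟩ := an_fl L.d hd
    obtain ⟨_, f1, -, f3⟩ := an_fl L.f hf
    obtain ⟨_, b1, -, b3⟩ := an_fl L.b hb'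
    refine (H (C := fun m => (C m).fl3 (2 * m - 1)) (A := A.mono fun m g => g.fl.2.2.1)
      (L := ⟨b3, L.c, d3, L.e, f3⟩) (La := La) (hb' := b1) (hd := d1) (hf := f1) (d2 k3)).congr'
      (A.mono fun m g => ?_)
    simp only [g.fl.2.2.2]
  subst k1 k2 k3
  have B := A.mono fun m g => show (C m).f ≤ (C m).d + (C m).e ∧ (C m).b ≤ (C m).a + (C m).d ∧
      (C m).c ≤ (C m).a + (C m).e by
    have j1 := (C m).t1
    have j2 := (C m).t2
    have j5 := (C m).q1
    have j6 := (C m).q2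
    have j7 := (C m).q3
    unfold Ad at g
    omega
  obtain rfl := lim_eq L.f L.d L.e (B.mono fun _ g => g.1) hf h.t2.2.2.2
  obtain rfl := lim_eq L.b La L.d (B.mono fun _ g => g.2.1) hb' (by linarith [h.t3.2.2.2])
  obtain rfl := lim_eq L.c La L.e (B.mono fun _ g => g.2.2) hc (by linarith [h.t4.2.2.2])
  exact hV _ L La

end Pool.Agent.MP_b0afd3_gt.H79
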