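import Pool.Agent.MP_b0afd3_gt.H79.Neg
import Pool.Agent.MP_b0afd3_gt.H79.Defs

set_option autoImplicit false

namespace Pool.Agent.MP_b0afd3_gt.H79

open Real Filter Topology Pool.Agent.MP_b0afd3_gt.H80 Col

/-- the conclusion of the volume conjecture for a sequence -/
def Lim (B : ℕ → ℝ) (V : ℝ) : Prop :=
  (∀ᶠ m : ℕ in atTop, 0 < B m) ∧
    Tendsto (fun m : ℕ => 2 * π / (2 * m + 1 : ℕ) * log (B m)) atTop (𝓝 V)

theorem Lim.mul {B B' : ℕ → ℝ} {V V' : ℝ} (h : Lim B V) (h' : Lim B' V') :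
    Lim (fun m => B m * B' m) (V + V') :=
  ⟨(h.1.and h'.1).mono fun _ g => mul_pos g.1 g.2, (h.2.add h'.2).congr' <|
    (h.1.and h'.1).mono fun m g => by simp only [log_mul g.1.ne' g.2.ne', mul_add]⟩

theorem fin {ta tb tc td te tf V : ℝ} (V0 : V ≠ 0)
    (R : Reg (π - ta) (π - tb) (π - tc) (π - td) (π - te) (π - tf))
    (hV : ∀ C : ℕ → Col, Lim5 C (π - tb) (π - tc) (π - td) (π - te) (π - tf) →
      Tendsto (fun m => an m (C m).a) atTop (𝓝 (π - ta)) →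
      Tendsto (fun m => hb m * log ((C m).u m)) atTop (𝓝 V)) {a b c d e f : ℕ → ℕ}
    (adm : ∀ᶠ m : ℕ in atTop, Adm (2 * m + 1) (f m) (b m) (c m) ∧ Adm (2 * m + 1) (f m) (d m) (e m) ∧
      Adm (2 * m + 1) (b m) (d m) (a m) ∧ Adm (2 * m + 1) (c m) (e m) (a m))
    (ha : Conv a ta) (hb' : Conv b tb) (hc : Conv c tc) (hd : Conv d td) (he : Conv e te)
    (hf : Conv f tf) :
    Lim (fun m => bracket (2 * m + 1) (f m) (b m) (c m) (d m) (e m) (a m)) V := by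
  choose C hC using fun m => exists_col m (a m) (b m) (c m) (d m) (e m) (f m)
  have E := ((eventually_ge_atTop 1).and adm).mono fun m g =>
    And.intro g.1 (hC m g.1 g.2.1 g.2.2.1 g.2.2.2.1 g.2.2.2.2)
  obtain ⟨_, a3, a4⟩ := an_lim (E.mono fun _ g => g.2.1) ha
  obtain ⟨_, b3, b4⟩ := an_lim (E.mono fun _ g => g.2.2.1) hb'
  obtain ⟨_, c3, c4⟩ := an_lim (E.mono fun _ g => g.2.2.2.1) hc
  obtain ⟨_, d3, d4⟩ := an_lim (E.mono fun _ g => g.2.2.2.2.1) hd
  obtain ⟨_, e3, e4⟩ := an_lim (E.mono fun _ g => g.2.2.2.2.2.1) he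
  obtain ⟨_, f3, f4⟩ := an_lim (E.mono fun _ g => g.2.2.2.2.2.2.1) hf
  have M := signs R hV (E.mono fun _ g => g.2.2.2.2.2.2.2) ⟨b4, c4, d4, e4, f4⟩ a4 a3 b3 c3 d3 e3 f3
  have B := E.mono fun m g => bracket_eq (C m) g.1 g.2.2.2.2.2.2.2 g.2.1 g.2.2.1 g.2.2.2.1
    g.2.2.2.2.1 g.2.2.2.2.2.1 g.2.2.2.2.2.2.1
  have U := (M.eventually_ne V0).mono fun m g => show 0 < |(C m).u m| from
    abs_pos.2 fun k => by simp [k] at g
  have S := E.mono fun m g => show 0 < |2 * sin (hb m)| / (2 * m + 1 : ℕ) from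
    div_pos (abs_pos.2 (s_ne g.1)) (by positivity)
  refine ⟨by filter_upwards [B, U, S] with m k1 k2 k3 using k1 ▸ mul_pos k3 k2, ?_⟩
  have := pref_lim.add M
  rw [zero_add] at this
  refine this.congr' ?_
  filter_upwards [B, U, S] with m k1 k2 k3
  rw [k1, log_mul k3.ne' k2.ne', log_abs, hb]
  ring

variable {p : Fin 4 → Fin 3 → ℝ} {n : Fin 4 → Fin 4 → ℝ}

theorem tetra_data (h : Tetra p n) {a b c d e f : ℝ} (ha : a = π - arccos (-mink (n 0) (n 1)))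
    (hb : b = π - arccos (-mink (n 1) (n 3))) (hc : c = π - arccos (-mink (n 1) (n 2)))
    (hd : d = π - arccos (-mink (n 0) (n 3))) (he : e = π - arccos (-mink (n 0) (n 2)))
    (hf : f = π - arccos (-mink (n 2) (n 3))) :
    Reg a b c d e f ∧ gd a b c d e f < 0 ∧ PosC a b c d e f ∧ hypVol (convexHull ℝ (Set.range p)) =
      gvol (cos a) (cos b) (cos c) (cos d) (cos e) (cos f) := by
  subst ha hb hc hd he hf
  obtain ⟨a1, a2⟩ := h.ang 2 (k := 0) (l := 1) (by decide) (by decide) (by decide)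
  obtain ⟨b1, b2⟩ := h.ang 0 (k := 1) (l := 3) (by decide) (by decide) (by decide)
  obtain ⟨c1, c2⟩ := h.ang 0 (k := 1) (l := 2) (by decide) (by decide) (by decide)
  obtain ⟨d1, d2⟩ := h.ang 1 (k := 0) (l := 3) (by decide) (by decide) (by decide)
  obtain ⟨e1, e2⟩ := h.ang 1 (k := 0) (l := 2) (by decide) (by decide) (by decide)
  obtain ⟨f1, f2⟩ := h.ang 0 (k := 2) (l := 3) (by decide) (by decide) (by decide)
  obtain ⟨g1, g2, g3⟩ := Pool.Agent.MP_b0afd3_gt.H14.geom h a2 b2 c2 d2 e2 f2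
  exact ⟨⟨tri_of_vtx f1 b1 c1 g2.v0, tri_of_vtx f1 d1 e1 g2.v1,
    tri_of_vtx a1 b1 d1 g2.v2, tri_of_vtx a1 c1 e1 g2.v3⟩, g1, g2, g3⟩

theorem reg_flip {a b c d e f : ℝ} : Reg (π - a) b c (π - d) (π - e) f → Reg a b c d e f :=
  fun ⟨t1, ⟨i1, i2, i3, i4⟩, ⟨j1, j2, j3, j4⟩, ⟨k1, k2, k3, k4⟩⟩ =>
    ⟨t1, ⟨by linarith, by linarith, by linarith, by linarith⟩,
      ⟨by linarith, by linarith, by linarith, by linarith⟩,
      ⟨by linarith, by linarith, by linarith, by linarith⟩⟩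

theorem virt {x y z u v w : ℕ → ℕ} {tx ty tz tu tv tw : ℝ} (h0 : Tri (π - tx) (π - ty) (π - tz))
    (h1 : Tri (π - tx) (π - tu) (π - tv)) (h2 : Tri (π - tw) (π - ty) (π - tu))
    (h3 : Tri (π - tw) (π - tz) (π - tv))
    (adm : ∀ᶠ m : ℕ in atTop, Adm (2 * m + 1) (x m) (u m) (v m) ∧
      Adm (2 * m + 1) (y m) (u m) (w m) ∧ Adm (2 * m + 1) (z m) (v m) (w m))
    (hx : Conv x tx) (hy : Conv y ty) (hz : Conv z tz) (hu : Conv u tu) (hv : Conv v tv)
    (hw : Conv w tw) : ∀ᶠ m : ℕ in atTop, Adm (2 * m + 1) (x m) (y m) (z m) := by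
  have E : ∀ g : ℕ → ℕ, ∀ᶠ m in atTop, ((g m : ℕ) : ℤ) = g m := fun g => .of_forall fun _ => rfl
  obtain ⟨X, x1, x2⟩ := an_lim (E x) hx
  obtain ⟨Y, y1, y2⟩ := an_lim (E y) hy
  obtain ⟨Z, z1, z2⟩ := an_lim (E z) hz
  obtain ⟨U, u1, u2⟩ := an_lim (E u) hu
  obtain ⟨V, v1, v2⟩ := an_lim (E v) hv
  obtain ⟨W, w1, w2⟩ := an_lim (E w) hw
  have K : ∀ {a b c : ℕ → ℕ} {A B C : ℝ}, Tendsto (fun m => an m (a m)) atTop (𝓝 A) →
      Tendsto (fun m => an m (b m)) atTop (𝓝 B) → Tendsto (fun m => an m (c m)) atTop (𝓝 C) →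
      (∀ᶠ m : ℕ in atTop, Adm (2 * m + 1) (a m) (b m) (c m)) →
      A ≤ B + C ∧ B ≤ A + C ∧ C ≤ A + B ∧ A + B + C ≤ 4 * π := by
    intro a b c A B C ha hb' hc H
    have H' := H.mono fun m g => show (a m : ℝ) ≤ b m + c m ∧ (b m : ℝ) ≤ a m + c m ∧
        (c m : ℝ) ≤ a m + b m ∧ (a m : ℝ) + b m + c m ≤ 4 * m by
      simp only [Adm] at g
      exact_mod_cast (show a m ≤ b m + c m ∧ b m ≤ a m + c m ∧ c m ≤ a m + b m ∧
        a m + b m + c m ≤ 4 * m by omega)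
    have t := hb_tendsto
    refine ⟨le_of_tendsto_of_tendsto ha (hb'.add hc) (H'.mono fun m g => ?_),
      le_of_tendsto_of_tendsto hb' (ha.add hc) (H'.mono fun m g => ?_),
      le_of_tendsto_of_tendsto hc (ha.add hb') (H'.mono fun m g => ?_), ?_⟩
    iterate 3 simp only [an, Int.cast_natCast]; nlinarith [hb_pos m]
    simpa using le_of_tendsto_of_tendsto ((ha.add hb').add hc) (t.const_add (4 * π))
      (H'.mono fun m g => by simp only [an, Int.cast_natCast]; nlinarith [hb_pos m, hb_mul m])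
  have k1 := K x2 u2 v2 (adm.mono fun _ g => g.1)
  have k2 := K y2 u2 w2 (adm.mono fun _ g => g.2.1)
  have k3 := K z2 v2 w2 (adm.mono fun _ g => g.2.2)
  have k0 : X < Y + Z ∧ Y < X + Z ∧ Z < X + Y ∧ X + Y + Z < 4 * π := by
    simp only [Tri] at h0 h1 h2 h3
    rcases x1 with rfl | rfl <;> rcases y1 with rfl | rfl <;> rcases z1 with rfl | rfl <;>
      first
      | exact ⟨by linarith, by linarith, by linarith, by linarith [pi_pos]⟩
      | (exfalso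
         rcases u1 with rfl | rfl <;> rcases v1 with rfl | rfl <;> rcases w1 with rfl | rfl <;>
           linarith)
  have t := hb_tendsto
  filter_upwards [adm, (x2.add t).eventually_lt (y2.add z2) (by simpa using k0.1),
    (y2.add t).eventually_lt (x2.add z2) (by simpa using k0.2.1),
    (z2.add t).eventually_lt (x2.add y2) (by simpa using k0.2.2.1),
    (((x2.add y2).add z2).add (t.const_mul 5)).eventually_lt tendsto_const_nhds
      (by simpa using k0.2.2.2)] with m g g1 g2 g3 g4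
  have p := hb_pos m
  have q := hb_mul m
  simp only [an, Int.cast_natCast] at g1 g2 g3 g4
  have i : x m < y m + z m ∧ y m < x m + z m ∧ z m < x m + y m ∧ x m + y m + z m + 6 < 4 * m := by
    exact_mod_cast (show (x m : ℝ) < y m + z m ∧ (y m : ℝ) < x m + z m ∧ (z m : ℝ) < x m + y m ∧
      (x m : ℝ) + y m + z m + 6 < 4 * m from ⟨by nlinarith, by nlinarith, by nlinarith, by nlinarith⟩)
  simp only [Adm, Nat.even_iff] at g ⊢
  omega

end Pool.Agent.MP_b0afd3_gt.H79
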